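import Mathlib

/-!
# Simplicial volume and positive scalar curvature: the definitions of the statement
-/

open scoped ContDiff Manifold
open MeasureTheory Bundle

noncomputable section

namespace Pool.Agent.Lib.MP_df705a_gt.SVS

/-- The space `ℝᴺ`. -/
abbrev V (N : ℕ) : Type := EuclideanSpace ℝ (Fin N)

/-- The smooth Riemannian metrics on the manifold `M` modelled on `E`. -/
abbrev Metric (E : Type*) [NormedAddCommGroup E] [NormedSpace ℝ E] (M : Type*) [TopologicalSpace M]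
    [ChartedSpace E M] [IsManifold 𝓘(ℝ, E) ∞ M] :=
  ContMDiffRiemannianMetric 𝓘(ℝ, E) ∞ E (fun x : M => TangentSpace 𝓘(ℝ, E) x)

/-- The partial derivative `∂_μ f`. -/
def pd {N : ℕ} (μ : Fin N) (f : V N → ℝ) (y : V N) : ℝ :=
  fderiv ℝ f y (EuclideanSpace.single μ 1)

/-- The Jacobian determinant. -/
def jdet {N : ℕ} (Φ : V N → V N) (y : V N) : ℝ :=
  (Matrix.of fun i μ : Fin N => pd μ (fun y => Φ y i) y).det

/-- Smooth actions of the group `G` on `ℝᴺ`. -/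
structure Act (G : Type*) [Group G] (N : ℕ) where
  act : G → V N → V N
  one : ∀ y, act 1 y = y
  mul : ∀ γ δ y, act (γ * δ) y = act γ (act δ y)
  smooth : ∀ γ, ContDiff ℝ ∞ (act γ)

/-- By the action `a` the group `G` is the group of the deck transformations of the covering
`ℝᴺ → M × Tᵏ`: every `γ ∈ G` satisfies `q ∘ γ = q` and `s ∘ γ = s + c` for an integer vector `c`, and
for two points `y, z` over the same point of `M × Tᵏ` there is exactly one `γ ∈ G` with `γ y = z`. -/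
structure Deck {N k : ℕ} {M : Type*} {G : Type*} [Group G] (a : Act G N) (q : V N → M)
    (s : V N → V k) : Prop where
  cover : ∀ γ, ∃ c : Fin k → ℤ, ∀ y, q (a.act γ y) = q y ∧ ∀ j, s (a.act γ y) j = s y j + c j
  trans : ∀ y z, q z = q y → (∀ j, ∃ c : ℤ, s z j = s y j + c) → ∃! γ, a.act γ y = z

section Group

variable {G : Type*} [Group G] {n : ℕ}

/-- Length functions on a group. -/
structure IsLength (ℓ : G → ℝ) : Prop where
  one : ℓ 1 = 0
  nonneg : ∀ g, 0 ≤ ℓ g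
  inv : ∀ g, ℓ g⁻¹ = ℓ g
  mul : ∀ g h, ℓ (g * h) ≤ ℓ g + ℓ h

/-- The diameter of the simplex with the vertices `g 0, …, g n`. -/
def diam (ℓ : G → ℝ) (g : Fin (n + 1) → G) : ℝ :=
  ⨆ p : Fin (n + 1) × Fin (n + 1), ℓ ((g p.1)⁻¹ * g p.2)

/-- Real homogeneous `n`-cocycles `c(g_0, …, g_n)` of the group `G` with
`|c| ≤ C exp (δ · diameter)`. -/
structure IsCocycle (ℓ : G → ℝ) (δ : ℝ) (c : (Fin (n + 1) → G) → ℝ) : Prop where
  inv : ∀ γ g, c (fun i => γ * g i) = c g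
  coc : ∀ g : Fin (n + 2) → G,
    ∑ i : Fin (n + 2), (-1 : ℝ) ^ (i : ℕ) * c (fun j => g (i.succAbove j)) = 0
  growth : ∃ C : ℝ, ∀ g, |c g| ≤ C * Real.exp (δ * diam ℓ g)

/-- The simplex `(1, h_1, …, h_n)`. -/
def smp (h : Fin n → G) : Fin (n + 1) → G := Fin.cons 1 h

/-- The simplices `(g_0, …, g_n)` and `(1, g_0⁻¹ g_1, …, g_0⁻¹ g_n)` are equal in the chain complex
`C_*(G)` of the group. -/
def nml (g : Fin (n + 1) → G) (i : Fin n) : G := (g 0)⁻¹ * g i.succ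

/-- The boundary of the real `(n+1)`-chain `∑ b(h) (1, h_1, …, h_{n+1})`, as a function of
`(h_1, …, h_n)`. -/
def bdry (b : (Fin (n + 1) → G) →₀ ℝ) : (Fin n → G) →₀ ℝ :=
  b.sum fun h t => ∑ i : Fin (n + 2),
    Finsupp.single (nml fun j => smp h (i.succAbove j)) ((-1 : ℝ) ^ (i : ℕ) * t)

end Group

section Fund

variable {G : Type*} [Group G] {m n k : ℕ}

/-- A smooth function `χ` with compact support and `∑_γ χ(γ⁻¹ y) = 1`. -/
structure IsPart (a : Act G (2 * m)) (χ : V (2 * m) → ℝ) : Prop where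
  smooth : ContDiff ℝ ∞ χ
  supp : HasCompactSupport χ
  sum : ∀ y, ∑ᶠ γ, χ (a.act γ⁻¹ y) = 1

/-- The `n + k` functions `χ(h_1⁻¹ y), …, χ(h_n⁻¹ y), s_1(y), …, s_k(y)`. -/
def fns (a : Act G (2 * m)) (χ : V (2 * m) → ℝ) (s : V (2 * m) → V k) (h : Fin n → G)
    (i : Fin (n + k)) (y : V (2 * m)) : ℝ :=
  Fin.addCases (fun i : Fin n => χ (a.act (h i)⁻¹ y)) (fun j : Fin k => s y j) i

/-- The coefficient of the simplex `(1, h_1, …, h_n)` in the fundamental cycle of `M`: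
`z(h) = ∫ χ dχ_{h 1} ∧ … ∧ dχ_{h n} ∧ ds_1 ∧ … ∧ ds_k`, `χ_h(y) = χ(h⁻¹ y)`. -/
def fund (a : Act G (2 * m)) (χ : V (2 * m) → ℝ) (s : V (2 * m) → V k) (e : n + k = 2 * m)
    (h : Fin n → G) : ℝ :=
  ∫ y, χ y * (Matrix.of fun i μ : Fin (2 * m) => pd μ (fns a χ s h (Fin.cast e.symm i)) y).det

end Fund

end Pool.Agent.Lib.MP_df705a_gt.SVS
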