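import Pool.Agent.Lib.MP_df705a_gt.Mg.G053

/-!
# SV, Z1: the action of the deck transformations
-/

open scoped Manifold ContDiff Topology
open MeasureTheory Filter Set

noncomputable section

namespace Pool.Agent.Lib.MP_df705a_gt.SV

open Pool.Agent.Lib.MP_df705a_gt.RL Pool.Agent.Lib.MP_df705a_gt.Pin
open Pool.Agent.Lib.MP_df705a_gt.Twist
open Pool.Agent.Lib.MP_df705a_gt.Coll (Met)

variable {n k m : ℕ} {M : Type*} [TopologicalSpace M] [ChartedSpace (V n) M]
  [IsManifold 𝓘(ℝ, V n) ∞ M] {q : V (2 * m) → M} {s : V (2 * m) → V k} {G : Type*} [Group G]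

theorem deck_countable (H : StableCover (V n) q s) {a : Act G (2 * m)} (ha : Deck a q s) :
    Countable G := by
  obtain ⟨e, -⟩ := ha.exists_equiv H
  have : Countable (RL.LG q s) := countable_LG H
  exact e.injective.countable

theorem deck_geo [CompactSpace M] (H : StableCover (V n) q s) {a : Act G (2 * m)}
    (ha : Deck a q s) (ori : ∀ γ y, 0 < (jac (a.act γ) y).det) (g : Met (V n) M)
    (hg : PosScal g) :
    1 ≤ m ∧ ∃ (g' : Geo (2 * m)) (F : Set (V (2 * m))) (σ : ℝ), a.Iso g' ∧ Cutoffs g' ∧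
      a.Fund F ∧ 0 < σ ∧ ∀ y, 4 * σ ≤ g'.scal y := by
  obtain ⟨e, he⟩ := ha.exists_equiv H
  have he' : ∀ γ, (LGact H).act (e γ) = a.act γ := fun γ => funext (he γ)
  have hes : ∀ δ : RL.LG q s, (LGact H).act δ = a.act (e.symm δ) :=
    fun δ => by rw [← he', e.apply_symm_apply]
  have ori' : ∀ (δ : RL.LG q s) (y : V (2 * m)), 0 < (jac ((LGact H).act δ) y).det := fun δ y => by
    rw [hes δ]
    exact ori _ y
  obtain ⟨g', hiso, hcut, σ, hσ, hs⟩ := manifold_end (existsGeo (2 * m)) g hg H ori'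
  obtain ⟨F, hF⟩ := exists_fundSet H
  have hFund := fund_LG H hF
  refine ⟨one_le_of_scal hσ hs, g', F, σ, ⟨fun γ y => ?_, ori⟩, hcut, ⟨hF.meas, hF.bdd,
    fun y => ?_⟩, hσ, hs⟩
  · have h1 := hiso.isom (e γ) y
    rw [he'] at h1
    exact h1
  · obtain ⟨δ, hδ, huniq⟩ := hFund.tile y
    refine ⟨e.symm δ, ?_, fun γ hγ => ?_⟩
    · show a.act (e.symm δ) y ∈ F
      rw [← hes]
      exact hδ
    · rw [MulEquiv.eq_symm_apply]
      refine huniq _ ?_
      show (LGact H).act (e γ) y ∈ F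
      rw [he']
      exact hγ

end Pool.Agent.Lib.MP_df705a_gt.SV
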