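import Pool.Agent.Lib.MP_df705a_gt.Mg.G079
import Pool.Agent.Lib.MP_df705a_gt.SV.Z1
import Pool.Agent.Lib.MP_df705a_gt.Mg.G082
import Pool.Agent.Lib.MP_df705a_gt.Mg.G087
import Pool.Agent.Lib.MP_df705a_gt.Mg.G084

/-!
# SV, Z5: the final theorem
-/

open scoped Manifold ContDiff Topology
open MeasureTheory Filter Set

noncomputable section

namespace Pool.Agent.Lib.MP_df705a_gt.SVS

open Pool.Agent.Lib.MP_df705a_gt

variable {n k m : ℕ} {M : Type*} {q : V (2 * m) → M} {s : V (2 * m) → V k}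
  {G : Type*} [Group G]

/-- The action. -/
def Act.toRL {N : ℕ} (a : Act G N) : RL.Act G N := ⟨a.act, a.one, a.mul, a.smooth⟩

theorem Deck.toRL {a : Act G (2 * m)} (h : Deck a q s) : RL.Deck a.toRL q s := ⟨h.cover, h.trans⟩

theorem IsLength.toSV {ℓ : G → ℝ} (h : IsLength ℓ) : SV.IsLen ℓ := ⟨h.one, h.nonneg, h.inv, h.mul⟩

theorem IsPart.toSV {a : Act G (2 * m)} {χ : V (2 * m) → ℝ} (h : IsPart a χ) :
    SV.IsPU a.toRL χ := ⟨h.smooth, h.supp, h.sum⟩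

theorem le_diam (ℓ : G → ℝ) (g : Fin (n + 1) → G) (i j : Fin (n + 1)) :
    ℓ ((g i)⁻¹ * g j) ≤ diam ℓ g :=
  le_ciSup (f := fun p : Fin (n + 1) × Fin (n + 1) => ℓ ((g p.1)⁻¹ * g p.2))
    (Set.finite_range _).bddAbove (i, j)

theorem diam_le {ℓ : G → ℝ} {g : Fin (n + 1) → G} {D : ℝ} (h : ∀ i j, ℓ ((g i)⁻¹ * g j) ≤ D) :
    diam ℓ g ≤ D := ciSup_le fun p => h p.1 p.2

theorem IsCocycle.toSV {ℓ : G → ℝ} {δ : ℝ} (hδ : 0 ≤ δ) {c : (Fin (n + 1) → G) → ℝ}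
    (h : IsCocycle ℓ δ c) : SV.IsCoc ℓ δ c := by
  refine ⟨h.inv, h.coc, ?_⟩
  obtain ⟨C, hC⟩ := h.growth
  have hC0 : 0 ≤ C := by
    have h1 := (abs_nonneg _).trans (hC fun _ => 1)
    by_contra h2
    exact absurd h1 (not_le.2 (mul_neg_of_neg_of_pos (not_le.1 h2) (Real.exp_pos _)))
  refine ⟨C, fun g D hD => (hC g).trans ?_⟩
  gcongr
  exact diam_le hD

theorem jdet_eq {Φ : V (2 * m) → V (2 * m)} (hΦ : ContDiff ℝ ∞ Φ) (y : V (2 * m)) :
    (RL.jac Φ y).det = jdet Φ y := by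
  unfold jdet RL.jac
  congr 1
  ext i μ
  simp only [Matrix.of_apply]
  unfold pd RL.bv
  have h1 : HasFDerivAt Φ (fderiv ℝ Φ y) y := ((hΦ.differentiable (by simp)) y).hasFDerivAt
  have h2 : HasFDerivAt (fun y => Φ y i)
      ((EuclideanSpace.proj i : V (2 * m) →L[ℝ] ℝ).comp (fderiv ℝ Φ y)) y :=
    (EuclideanSpace.proj i : V (2 * m) →L[ℝ] ℝ).hasFDerivAt.comp y h1
  rw [h2.fderiv]
  rfl

theorem fund_eq (a : Act G (2 * m)) (χ : V (2 * m) → ℝ) (s : V (2 * m) → V k)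
    (e : n + k = 2 * m) (h : Fin n → G) :
    fund a χ s e h = ∫ y, χ y * (Matrix.of fun i μ : Fin (2 * m) =>
      RL.pd μ (SV.rwc a.toRL χ s e (smp h) i) y).det := rfl

variable [TopologicalSpace M] [ChartedSpace (V n) M]
  [IsManifold 𝓘(ℝ, V n) ∞ M] [CompactSpace M]

/-- The final theorem. -/
theorem main (H : Pin.StableCover (V n) q s) {a : Act G (2 * m)} (ha : Deck a q s)
    (ori : ∀ γ y, 0 < jdet (a.act γ) y) (g : Metric (V n) M) (hg : Twist.PosScal g)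
    (e : n + k = 2 * m) {ℓ : G → ℝ} (hℓ : IsLength ℓ) :
    (∃ χ, IsPart a χ) ∧ ∃ δ : ℝ, 0 < δ ∧ ∀ χ, IsPart a χ →
      (Function.support (fund a χ s e)).Finite ∧
      (∀ c, IsCocycle ℓ δ c → ∑ᶠ h, fund a χ s e h * c (smp h) = 0) ∧
      ∀ ε : ℝ, 0 < ε → ∃ b : (Fin (n + 1) → G) →₀ ℝ,
        ∑ᶠ h, |fund a χ s e h - bdry b h| * Real.exp (δ * diam ℓ (smp h)) < ε := by
  have haR := ha.toRL
  have : Countable G := SV.deck_countable H haR
  obtain ⟨hm, g', F, σ, hiso, hcut, hF, hσ, hscal⟩ := SV.deck_geo H haR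
    (fun γ y => (ori γ y).trans_eq (jdet_eq (a.smooth γ) y).symm) g hg
  have hp : SV.IsProper a.toRL := SV.isProper_of_cutoffs hiso hF hcut
  have hs : SV.IsAdd a.toRL s := by
    refine ⟨fun j => ?_, fun γ => ?_⟩
    · exact (EuclideanSpace.proj j : V k →L[ℝ] ℝ).contDiff.comp H.smooth_s
    · obtain ⟨c, hc⟩ := ha.cover γ
      exact ⟨fun j => c j, fun y j => (hc y).2 j⟩
  obtain ⟨δ, hδ, hmain⟩ := SV.geo_main hm g' a.toRL hiso hF hp hσ hscal e hs hℓ.toSV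
  refine ⟨?_, δ, hδ, fun χ hχ => ?_⟩
  · obtain ⟨χ, hχ, -⟩ := SV.exists_isPU a.toRL hF hp
    exact ⟨χ, hχ.smooth, hχ.supp, hχ.sum⟩
  have hfin : (Function.support (fund a χ s e)).Finite := by
    have h1 := SV.finite_fund a.toRL hp e s hχ.toSV
    exact h1.subset fun h hh => by
      rw [Function.mem_support, fund_eq] at hh
      exact hh
  have hA : ∀ c, IsCocycle ℓ δ c → ∑ᶠ h, fund a χ s e h * c (smp h) = 0 := by
    intro c hc
    have h1 := hmain c (hc.toSV hδ.le) F hF χ hχ.toSV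
    rw [SV.unfold_sum g' a.toRL hiso hF hp e hs hχ.toSV hc.inv] at h1
    rw [← h1]
    refine finsum_congr fun h => ?_
    rw [fund_eq, mul_comm]
  refine ⟨hfin, hA, fun ε hε => ?_⟩
  set z : (Fin n → G) →₀ ℝ := Finsupp.ofSupportFinite (fund a χ s e) hfin with hz
  have hzc : ∀ h, z h = fund a χ s e h := fun h => rfl
  obtain ⟨b, hb⟩ := dual hℓ hδ.le (z := z) (fun c hc => by
    rw [← hA c hc, Finsupp.sum, finsum_eq_sum_of_support_subset]
    · exact Finset.sum_congr rfl fun h _ => by rw [hzc]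
    · intro h hh
      rw [Function.mem_support] at hh
      rw [Finset.mem_coe, Finsupp.mem_support_iff, hzc]
      exact left_ne_zero_of_mul hh) hε
  refine ⟨b, lt_of_eq_of_lt ?_ hb⟩
  rw [Finsupp.sum, finsum_eq_sum_of_support_subset]
  · exact Finset.sum_congr rfl fun h _ => by rw [Finsupp.sub_apply, hzc]
  · intro h hh
    rw [Function.mem_support] at hh
    rw [Finset.mem_coe, Finsupp.mem_support_iff, Finsupp.sub_apply, hzc]
    intro h0
    apply hh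
    rw [h0, abs_zero, zero_mul]

end Pool.Agent.Lib.MP_df705a_gt.SVS
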