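import Pool.Agent.Lib.MP_df705a_gt.Mg.G052

/-!
# SV, L1: the parametrix with its first derivative
-/

open scoped ContDiff InnerProductSpace Matrix Topology Real
open MeasureTheory Filter

noncomputable section

set_option linter.unusedSectionVars false

namespace Pool.Agent.Lib.MP_df705a_gt.SV

open RL

variable {m : ℕ}

/-- The Dirac operator on functions with values in the endomorphisms. -/
def diracE (C : Cliff m) (g : Geo (2 * m)) (B : Pot (2 * m)) (T : V (2 * m) → En m)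
    (y : V (2 * m)) : En m :=
  ∑ a, C.c a * ∑ μ, (g.e y μ a : ℂ) • (pd μ T y + C.conn g B μ y * T y)

theorem pd_apply_vec {T : V (2 * m) → En m} {y : V (2 * m)} (hT : DifferentiableAt ℝ T y)
    (μ : Fin (2 * m)) (u : Sp m) : pd μ (fun y => T y u) y = pd μ T y u := by
  unfold pd
  have h1 : HasFDerivAt (fun y => T y u)
      ((((ContinuousLinearMap.apply ℂ (Sp m) u).restrictScalars ℝ)).comp (fderiv ℝ T y)) y :=
    (((ContinuousLinearMap.apply ℂ (Sp m) u).restrictScalars ℝ)).hasFDerivAt.comp y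
      hT.hasFDerivAt
  rw [h1.fderiv]
  rfl

theorem diracE_apply (C : Cliff m) (g : Geo (2 * m)) (B : Pot (2 * m)) {T : V (2 * m) → En m}
    {y : V (2 * m)} (hT : DifferentiableAt ℝ T y) (u : Sp m) :
    diracE C g B T y u = C.dirac g B (fun y => T y u) y := by
  unfold diracE Cliff.dirac Cliff.nabE Cliff.nab
  rw [sum_apply]
  refine Finset.sum_congr rfl fun a _ => ?_
  show C.c a ((∑ μ, (g.e y μ a : ℂ) • (pd μ T y + C.conn g B μ y * T y)) u) = _
  rw [sum_apply]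
  congr 1
  refine Finset.sum_congr rfl fun μ _ => ?_
  rw [pd_apply_vec hT]
  rfl

/-- The main term of the derivative. -/
def dgs (C : Cliff m) (g : Geo (2 * m)) (z v : V (2 * m)) (r : ℝ) : En m :=
  ∑ a, C.c a * ∑ μ, (g.e z μ a : ℂ) • ((pd μ (fun v => gs g z v r) v : ℂ) • (1 : En m))

/-- A parametrix for the heat equation of `D²`, `D` the Dirac operator without potential, at the
points `z` of the ball of radius `ρ`, with its derivative `dq = D q`. -/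
structure ParaD (C : Cliff m) (g : Geo (2 * m)) (ρ c κ : ℝ)
    extends ParaX C g 0 ρ c κ where
  dq : ℝ → V (2 * m) → V (2 * m) → En m
  dq_eq : ∀ r z y u, 0 < r → dq r z y u = C.dirac g 0 (fun y => q r z y u) y
  cont_dq : ContinuousOn (fun p : ℝ × V (2 * m) × V (2 * m) => dq p.1 p.2.1 p.2.2) {p | 0 < p.1}
  supp_dq : ∀ r z y, 1 < ‖y - z‖ → dq r z y = 0
  bd_dq : ∀ r z y, ‖z‖ ≤ ρ → 0 < r → r ≤ 1 → ‖dq r z y‖ ≤ c * ((√r)⁻¹ * gz m κ (y - z) r)
  lead_q : ∀ r z y, ‖z‖ ≤ ρ → 0 < r → r ≤ 1 →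
    ‖q r z y - (gs g z (y - z) r : ℂ) • (1 : En m)‖ ≤ c * (√r * gz m κ (y - z) r)
  lead_dq : ∀ r z y, ‖z‖ ≤ ρ → 0 < r → r ≤ 1 →
    ‖dq r z y - dgs C g z (y - z) r‖ ≤ c * gz m κ (y - z) r

/-! ### The data without potential -/

/-- the zero form on a point -/
def Om0 (N : ℕ) : Unit → V N → Mt N := fun _ _ => 0

theorem rform0 (N : ℕ) : RForm (Measure.dirac ()) (Om0 N) where
  closed x := by
    refine ⟨fun μ ν => contDiff_const, fun y μ ν => by simp [Om0], fun y l μ ν => ?_⟩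
    have e : ∀ i j k, pd i (fun _ : V N => (0 : Mt N) j k) y = 0 := fun i j k => by
      unfold pd
      simp
    show pd l (fun _ : V N => (0 : Mt N) μ ν) y + pd μ (fun _ : V N => (0 : Mt N) ν l) y
      + pd ν (fun _ : V N => (0 : Mt N) l μ) y = 0
    rw [e, e, e]
    simp
  mom r k := by
    refine ⟨fun _ => 1, measurable_const, fun _ => le_rfl, fun p => integrable_const _, ?_⟩
    intro x j hj μ ν y hy
    have e : (fun y : V N => Om0 N x y μ ν) = fun _ => (0 : ℝ) := rfl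
    rw [e, iteratedFDeriv_fun_zero]
    simp

theorem tPot_Om0 : tPot (Om0 (2 * m) ()) 0 = (0 : Pot (2 * m)) := by
  funext ν y
  simp [tPot]

/-- The operator of the data. -/
def op0 (C : Cliff m) (g : Geo (2 * m)) (ρ : ℝ) : Op (Measure.dirac ()) m ρ :=
  dOp (ρ := ρ) C g (rform0 (2 * m))

/-- The kernel as a function of `v = y - z`. -/
def Q0 (C : Cliff m) (g : Geo (2 * m)) (ρ : ℝ) (z : V (2 * m)) (r : ℝ) (v : V (2 * m)) : En m :=
  (op0 C g ρ).Q g (2 * m) 0 () z r v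

theorem kq0_eq (C : Cliff m) (g : Geo (2 * m)) (ρ r : ℝ) (z y : V (2 * m)) :
    kq C g (rform0 (2 * m)) ρ 0 () r z y = Q0 C g ρ z r (y - z) := by
  have h1 : ph (Om0 (2 * m) ()) 0 z (y - z) = 1 := by
    unfold ph
    simp
  unfold kq Q0 op0
  rw [h1]
  exact one_smul ℂ _

/-- The derivative of `Q0`. -/
def dQ0 (C : Cliff m) (g : Geo (2 * m)) (ρ : ℝ) (μ : Fin (2 * m)) (z : V (2 * m)) (r : ℝ)
    (v : V (2 * m)) : En m :=
  (chi v : ℂ) • (((√r)⁻¹ : ℂ) • ∑ n ∈ Finset.range (2 * m + 1),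
      ((√r : ℂ) ^ n) • Wp g () z r (hM (hR g) μ (((op0 C g ρ).dat g).PT ((0 : ℝ) : ℂ) n)) v)
    + ((pd μ (chi (N := 2 * m)) v : ℝ) : ℂ) • (op0 C g ρ).U g (2 * m) 0 () z r v

theorem pd_Q0 (C : Cliff m) (g : Geo (2 * m)) (ρ : ℝ) (μ : Fin (2 * m)) (z : V (2 * m)) {r : ℝ}
    (hr : 0 < r) (v : V (2 * m)) : pd μ (Q0 C g ρ z r) v = dQ0 C g ρ μ z r v := by
  have hc : ContDiff ℝ ∞ (chi (N := 2 * m)) := contDiff_chi
  have hU := (op0 C g ρ).contDiff_U g (2 * m) 0 () z r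
  have h1 := Op.P11B_pd_smul μ (hc.differentiable (by simp) v) (hU.differentiable (by simp) v)
  unfold Q0 dQ0
  rw [← (op0 C g ρ).pd_U g (2 * m) 0 () z v hr μ, ← h1]
  rfl

theorem pd_comp_sub {F : Type*} [NormedAddCommGroup F] [NormedSpace ℝ F] (μ : Fin (2 * m))
    {T : V (2 * m) → F} (z y : V (2 * m)) (hT : DifferentiableAt ℝ T (y - z)) :
    pd μ (fun y => T (y - z)) y = pd μ T (y - z) := by
  unfold pd
  have h1 : HasFDerivAt (fun y : V (2 * m) => y - z) (ContinuousLinearMap.id ℝ (V (2 * m))) y :=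
    (hasFDerivAt_id y).sub_const z
  have h2 := hT.hasFDerivAt.comp y h1
  have h3 : HasFDerivAt (fun y => T (y - z))
      ((fderiv ℝ T (y - z)).comp (ContinuousLinearMap.id ℝ (V (2 * m)))) y := h2
  rw [h3.fderiv]
  rfl

/-- The kernel `D q`. -/
def dk0 (C : Cliff m) (g : Geo (2 * m)) (ρ : ℝ) (r : ℝ) (z y : V (2 * m)) : En m :=
  ∑ a, C.c a * ∑ μ, (g.e y μ a : ℂ) •
    (dQ0 C g ρ μ z r (y - z) + C.conn g 0 μ y * Q0 C g ρ z r (y - z))

theorem contDiff_Q0 (C : Cliff m) (g : Geo (2 * m)) (ρ : ℝ) (z : V (2 * m)) (r : ℝ) :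
    ContDiff ℝ ∞ (Q0 C g ρ z r) := (op0 C g ρ).contDiff_Q g (2 * m) 0 () z r

theorem dk0_apply (C : Cliff m) (g : Geo (2 * m)) (ρ : ℝ) {r : ℝ} (hr : 0 < r) (z y : V (2 * m))
    (u : Sp m) : dk0 C g ρ r z y u = C.dirac g 0 (fun y => Q0 C g ρ z r (y - z) u) y := by
  have hd : ∀ v, DifferentiableAt ℝ (Q0 C g ρ z r) v := fun v =>
    (contDiff_Q0 C g ρ z r).differentiable (by simp) v
  have h1 : DifferentiableAt ℝ (fun y => Q0 C g ρ z r (y - z)) y :=
    (hd _).comp y (differentiableAt_id.sub_const z)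
  rw [← diracE_apply C g 0 h1]
  unfold dk0 diracE
  congr 1
  refine Finset.sum_congr rfl fun a _ => ?_
  congr 1
  refine Finset.sum_congr rfl fun μ _ => ?_
  rw [pd_comp_sub μ z y (hd _), pd_Q0 C g ρ μ z hr]

/-! ### bounds -/

theorem gz_nonneg (κ : ℝ) (v : V (2 * m)) {r : ℝ} (hr : 0 ≤ r) : 0 ≤ gz m κ v r := by
  unfold gz
  positivity

/-- continuous matrix coefficients are bounded on balls -/
theorem e_bd (g : Geo (2 * m)) (R : ℝ) : ∃ D : ℝ, 0 ≤ D ∧ ∀ y : V (2 * m), ‖y‖ ≤ R → ∀ μ a,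
    |g.e y μ a| ≤ D := by
  have h1 : ∀ p : Fin (2 * m) × Fin (2 * m), ∃ D : ℝ, ∀ y : V (2 * m), ‖y‖ ≤ R →
      |g.e y p.1 p.2| ≤ D := by
    intro p
    obtain ⟨D, hD⟩ := (isCompact_closedBall (0 : V (2 * m)) R).exists_bound_of_continuousOn
      (g.smooth_e p.1 p.2).continuous.continuousOn
    exact ⟨D, fun y hy => hD y (mem_closedBall_zero_iff.2 hy)⟩
  choose D hD using h1
  refine ⟨∑ p, |D p|, Finset.sum_nonneg fun p _ => abs_nonneg _, fun y hy μ a => ?_⟩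
  refine ((hD (μ, a) y hy).trans (le_abs_self _)).trans ?_
  exact Finset.single_le_sum (f := fun p => |D p|) (fun p _ => abs_nonneg _)
    (Finset.mem_univ (μ, a))

theorem conn_bd (C : Cliff m) (g : Geo (2 * m)) (R : ℝ) : ∃ D : ℝ, 0 ≤ D ∧
    ∀ y : V (2 * m), ‖y‖ ≤ R → ∀ μ, ‖C.conn g 0 μ y‖ ≤ D := by
  have h1 : ∀ μ : Fin (2 * m), ∃ D : ℝ, ∀ y : V (2 * m), ‖y‖ ≤ R → ‖C.conn g 0 μ y‖ ≤ D := by
    intro μ
    obtain ⟨D, hD⟩ := (isCompact_closedBall (0 : V (2 * m)) R).exists_bound_of_continuousOn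
      (contDiff_conn C g isPot_zero μ).continuous.continuousOn
    exact ⟨D, fun y hy => hD y (mem_closedBall_zero_iff.2 hy)⟩
  choose D hD using h1
  refine ⟨∑ μ, |D μ|, Finset.sum_nonneg fun p _ => abs_nonneg _, fun y hy μ => ?_⟩
  refine ((hD μ y hy).trans (le_abs_self _)).trans ?_
  exact Finset.single_le_sum (f := fun p => |D p|) (fun p _ => abs_nonneg _)
    (Finset.mem_univ μ)

end Pool.Agent.Lib.MP_df705a_gt.SV
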