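import Pool.Agent.Lib.MP_df705a_gt.Mg.G080

/-!
# SV, G6: the properties `IsPhi` of the function `phi`
-/

open scoped ContDiff InnerProductSpace Matrix ENNReal NNReal Topology
open MeasureTheory Filter Set

noncomputable section

namespace Pool.Agent.Lib.MP_df705a_gt.SV

open Pool.Agent.Lib.MP_df705a_gt.RL

namespace G6x

section Det

variable {X : Type*} {N : ℕ}

/-- The matrix with the rows `1, f_0, …, f_{N-1}` at the points `x_0, …, x_N`. -/
def mt (f : Fin N → X → ℝ) (x : Fin (N + 1) → X) : Matrix (Fin (N + 1)) (Fin (N + 1)) ℝ :=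
  fun i j => (Fin.cons (α := fun _ => X → ℝ) (fun _ => 1) f : Fin (N + 1) → X → ℝ) i (x j)

theorem mt_zero (f : Fin N → X → ℝ) (x : Fin (N + 1) → X) (j : Fin (N + 1)) :
    mt f x 0 j = 1 := rfl

theorem mt_succ (f : Fin N → X → ℝ) (x : Fin (N + 1) → X) (i : Fin N) (j : Fin (N + 1)) :
    mt f x i.succ j = f i (x j) := rfl

theorem det_mt (f : Fin N → X → ℝ) (x : Fin (N + 1) → X) :
    (mt f x).det = ∑ σ : Equiv.Perm (Fin N), ((Equiv.Perm.sign σ : ℤ) : ℝ) *
      ∏ j : Fin N, (f (σ j) (x j.succ) - f (σ j) (x j.castSucc)) := by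
  set B : Matrix (Fin (N + 1)) (Fin (N + 1)) ℝ := fun i j =>
    Fin.cases (mt f x i 0) (fun j : Fin N => mt f x i j.succ - mt f x i j.castSucc) j with hB
  have h1 : (mt f x).det = B.det := by
    refine Matrix.det_eq_of_forall_col_eq_smul_add_pred (fun _ => 1) (fun i => rfl) fun i j => ?_
    show mt f x i j.succ = (mt f x i j.succ - mt f x i j.castSucc) + 1 * mt f x i j.castSucc
    ring
  rw [h1, Matrix.det_succ_row_zero, Fin.sum_univ_succ]
  have h2 : ∀ j : Fin N, B 0 j.succ = 0 := fun j => by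
    show (1 : ℝ) - 1 = 0
    ring
  have h3 : B 0 0 = 1 := rfl
  simp only [h2, h3, mul_zero, zero_mul, Finset.sum_const_zero, add_zero, Fin.val_zero, pow_zero,
    one_mul]
  rw [Matrix.det_apply']
  refine Finset.sum_congr rfl fun σ _ => ?_
  rfl

theorem det_rot (hN : Even N) (f : Fin N → X → ℝ) (x : Fin (N + 1) → X) :
    (mt f fun i => x (i + 1)).det = (mt f x).det := by
  have h1 : mt f (fun i => x (i + 1)) = (mt f x).submatrix id (finRotate (N + 1)) := by
    funext i j
    show _ = mt f x i (finRotate (N + 1) j)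
    rw [finRotate_apply]
    rfl
  rw [h1, Matrix.det_permute', sign_finRotate]
  simp [hN.neg_one_pow]

theorem det_coc (f : Fin N → X → ℝ) (x : Fin (N + 2) → X) :
    ∑ i : Fin (N + 2), (-1 : ℝ) ^ (i : ℕ) * (mt f fun j => x (i.succAbove j)).det = 0 := by
  set M : Matrix (Fin (N + 2)) (Fin (N + 2)) ℝ := fun i j =>
    (Fin.cons (α := fun _ => X → ℝ) (fun _ => 1) (Fin.cons (α := fun _ => X → ℝ) (fun _ => 1) f) :
      Fin (N + 2) → X → ℝ) i (x j) with hM
  have h1 : M.det = 0 := Matrix.det_zero_of_row_eq (i := 0) (j := 1) (by simp) rfl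
  rw [Matrix.det_succ_row_zero] at h1
  rw [← h1]
  refine Finset.sum_congr rfl fun i _ => ?_
  have h2 : M 0 i = 1 := rfl
  rw [h2, mul_one]
  rfl

/-- The rows. -/
def mr (f : Fin N → X → ℝ) (x : Fin (N + 1) → X) : Fin (N + 1) → Fin (N + 1) → ℝ :=
  fun i j => (Fin.cons (α := fun _ => X → ℝ) (fun _ => 1) f : Fin (N + 1) → X → ℝ) i (x j)

theorem mr_upd (f : Fin N → X → ℝ) (x : Fin (N + 1) → X) (i : Fin N) (v : X → ℝ) :
    mr (Function.update f i v) x = Function.update (mr f x) i.succ fun j => v (x j) := by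
  funext l j
  refine Fin.cases ?_ (fun l => ?_) l
  · rw [Function.update_of_ne (Fin.succ_ne_zero i).symm]
    rfl
  · by_cases h : l = i
    · subst h
      rw [Function.update_self]
      show Function.update f l v l (x j) = _
      rw [Function.update_self]
    · rw [Function.update_of_ne fun h' => h (Fin.succ_injective _ h')]
      show Function.update f i v l (x j) = f l (x j)
      rw [Function.update_of_ne h]

theorem det_upd {T : Type*} [Fintype T] (u : T → X → ℝ) (f : Fin N → X → ℝ)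
    (x : Fin (N + 1) → X) (i : Fin N) (hu : ∀ j, ∑ γ, u γ (x j) = 1) :
    ∑ γ, (mt (Function.update f i (u γ)) x).det = 0 := by
  have h1 : ∀ v : X → ℝ, (mt (Function.update f i v) x).det =
      Matrix.detRowAlternating (Function.update (mr f x) i.succ fun j => v (x j)) := by
    intro v
    rw [← mr_upd]
    rfl
  simp only [h1]
  have h2 := (Matrix.detRowAlternating (n := Fin (N + 1)) (R := ℝ)).toMultilinearMap.map_update_sum
    Finset.univ i.succ (fun γ j => u γ (x j)) (mr f x)
  refine h2.symm.trans ?_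
  have h3 : (∑ γ, fun j => u γ (x j)) = mr f x 0 := by
    funext j
    rw [Finset.sum_apply, hu j]
    rfl
  rw [h3]
  refine (Matrix.detRowAlternating (n := Fin (N + 1)) (R := ℝ)).map_eq_zero_of_eq _
    (i := 0) (j := i.succ) ?_ (Fin.succ_ne_zero i).symm
  rw [Function.update_self, Function.update_of_ne (Fin.succ_ne_zero i).symm]

end Det

section Sum

/-- A sum over functions vanishes if the partial sums over one of the coordinates do. -/
theorem sum_upd {ι T : Type*} [Fintype ι] [DecidableEq ι] [Fintype T] (i : ι) (F : (ι → T) → ℝ)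
    (h : ∀ g, ∑ γ, F (Function.update g i γ) = 0) : ∑ g, F g = 0 := by
  classical
  cases isEmpty_or_nonempty T with
  | inl hT =>
    refine Finset.sum_eq_zero fun g _ => ?_
    exact (hT.false (g i)).elim
  | inr hT =>
    have h1 : ∑ p : (ι → T) × T, F (Function.update p.1 i p.2) = ∑ p : (ι → T) × T, F p.1 := by
      have hinv : Function.Involutive fun p : (ι → T) × T => (Function.update p.1 i p.2, p.1 i) := by
        intro p
        refine Prod.ext ?_ ?_
        · simp
        · simp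
      exact (Equiv.sum_comp (hinv.toPerm _) fun p : (ι → T) × T => F p.1)
    rw [Fintype.sum_prod_type, Fintype.sum_prod_type] at h1
    simp only [h, Finset.sum_const_zero, Finset.sum_const, Finset.card_univ, nsmul_eq_mul] at h1
    rw [← Finset.mul_sum] at h1
    have h2 : (Fintype.card T : ℝ) ≠ 0 := Nat.cast_ne_zero.2 Fintype.card_ne_zero
    exact (mul_eq_zero.1 h1.symm).resolve_left h2

end Sum

variable {G : Type*} [Group G] {m n k : ℕ}

/-- The determinant `D_g(x)`. -/
def Dg (a : Act G (2 * m)) (χ : V (2 * m) → ℝ) (s : V (2 * m) → V k) (h : n + k = 2 * m)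
    (g : Fin (n + 1) → G) (x : Fin (2 * m + 1) → V (2 * m)) : ℝ :=
  (mt (rwc a χ s h g) x).det

theorem rwc_congr (a : Act G (2 * m)) (χ : V (2 * m) → ℝ) (s : V (2 * m) → V k)
    (h : n + k = 2 * m) {g g' : Fin (n + 1) → G} (hg : ∀ i : Fin n, g i.succ = g' i.succ) :
    rwc a χ s h g = rwc a χ s h g' := by
  funext i y
  unfold rwc rw'
  simp only [hg]

theorem Dg_congr (a : Act G (2 * m)) (χ : V (2 * m) → ℝ) (s : V (2 * m) → V k)
    (h : n + k = 2 * m) {g g' : Fin (n + 1) → G} (hg : ∀ i : Fin n, g i.succ = g' i.succ)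
    (x : Fin (2 * m + 1) → V (2 * m)) : Dg a χ s h g x = Dg a χ s h g' x := by
  unfold Dg
  rw [rwc_congr a χ s h hg]

theorem rwc_upd (a : Act G (2 * m)) (χ : V (2 * m) → ℝ) (s : V (2 * m) → V k)
    (h : n + k = 2 * m) (g : Fin (n + 1) → G) (j : Fin n) (γ : G) :
    rwc a χ s h (Function.update g j.succ γ) =
      Function.update (rwc a χ s h g) (Fin.cast h (Fin.castAdd k j)) (ch a χ γ) := by
  have key : ∀ i : Fin (n + k), rw' a χ s (Function.update g j.succ γ) i =
      Function.update (rw' a χ s g) (Fin.castAdd k j) (ch a χ γ) i := by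
    intro i
    refine Fin.addCases (fun i => ?_) (fun i => ?_) i
    · by_cases hi : i = j
      · subst hi
        rw [Function.update_self]
        funext y
        unfold rw'
        rw [Fin.addCases_left, Function.update_self]
      · rw [Function.update_of_ne fun h' => hi (Fin.castAdd_injective _ _ h')]
        funext y
        unfold rw'
        rw [Fin.addCases_left, Fin.addCases_left,
          Function.update_of_ne fun h' => hi (Fin.succ_injective _ h')]
    · rw [Function.update_of_ne]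
      · funext y
        unfold rw'
        rw [Fin.addCases_right, Fin.addCases_right]
      · intro h'
        have := congrArg Fin.val h'
        simp at this
        omega
  funext i
  by_cases hi : i = Fin.cast h (Fin.castAdd k j)
  · subst hi
    rw [Function.update_self]
    have h1 := key (Fin.castAdd k j)
    rw [Function.update_self] at h1
    exact h1
  · rw [Function.update_of_ne hi]
    have h1 := key (Fin.cast h.symm i)
    rw [Function.update_of_ne] at h1
    · exact h1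
    · intro h'
      apply hi
      rw [← h']
      simp

/-- The sum `Φ_y(x)` over functions with values in the finite set `T`. -/
def Ph (a : Act G (2 * m)) (χ : V (2 * m) → ℝ) (s : V (2 * m) → V k) (h : n + k = 2 * m)
    (c : (Fin (n + 1) → G) → ℝ) (T : Finset G) (y : V (2 * m))
    (x : Fin (2 * m + 1) → V (2 * m)) : ℝ :=
  ∑ g : Fin (n + 1) → T, c (fun i => (g i : G)) * ch a χ (g 0) y *
    Dg a χ s h (fun i => (g i : G)) x

theorem Ph_indep (a : Act G (2 * m)) (χ : V (2 * m) → ℝ) (s : V (2 * m) → V k)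
    (h : n + k = 2 * m) {c : (Fin (n + 1) → G) → ℝ}
    (hc : ∀ g : Fin (n + 2) → G,
      ∑ i : Fin (n + 2), (-1 : ℝ) ^ (i : ℕ) * c (fun j => g (i.succAbove j)) = 0)
    (T : Finset G) {y y' : V (2 * m)} (x : Fin (2 * m + 1) → V (2 * m))
    (hy : ∑ γ : T, ch a χ γ y = 1) (hy' : ∑ γ : T, ch a χ γ y' = 1)
    (hx : ∀ j, ∑ γ : T, ch a χ γ (x j) = 1) :
    Ph a χ s h c T y x = Ph a χ s h c T y' x := by
  classical
  set S : Fin (n + 2) → (Fin (n + 2) → T) → ℝ := fun i g =>
    ch a χ (g 0) y' * ch a χ (g 1) y * c (fun j => (g (i.succAbove j) : G)) *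
      Dg a χ s h (fun j => (g j.succ : G)) x with hS
  have h0 : ∑ i : Fin (n + 2), (-1 : ℝ) ^ (i : ℕ) * ∑ g, S i g = 0 := by
    simp only [Finset.mul_sum]
    rw [Finset.sum_comm]
    refine Finset.sum_eq_zero fun g _ => ?_
    have h1 := hc fun i => (g i : G)
    calc _ = ch a χ (g 0) y' * ch a χ (g 1) y * Dg a χ s h (fun j => (g j.succ : G)) x *
          ∑ i : Fin (n + 2), (-1 : ℝ) ^ (i : ℕ) * c (fun j => (g (i.succAbove j) : G)) := by
          rw [Finset.mul_sum]
          refine Finset.sum_congr rfl fun i _ => ?_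
          rw [hS]
          ring
      _ = 0 := by rw [h1, mul_zero]
  have h1 : ∑ g, S 0 g = Ph a χ s h c T y x := by
    rw [← (Fin.consEquiv fun _ : Fin (n + 2) => (T : Type _)).sum_comp (S 0), Fintype.sum_prod_type,
      Finset.sum_comm]
    unfold Ph
    refine Finset.sum_congr rfl fun g _ => ?_
    calc _ = ∑ γ : T, ch a χ γ y' * (c (fun i => (g i : G)) * ch a χ (g 0) y *
          Dg a χ s h (fun i => (g i : G)) x) := by
          refine Finset.sum_congr rfl fun γ _ => ?_
          show ch a χ γ y' * ch a χ (g 0) y * c (fun j => (g j : G)) *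
            Dg a χ s h (fun j => (g j : G)) x = _
          ring
      _ = _ := by rw [← Finset.sum_mul, hy', one_mul]
  have h2 : ∑ g, S 1 g = Ph a χ s h c T y' x := by
    rw [← (Fin.insertNthEquiv (fun _ : Fin (n + 2) => (T : Type _)) 1).sum_comp (S 1),
      Fintype.sum_prod_type, Finset.sum_comm]
    unfold Ph
    refine Finset.sum_congr rfl fun g _ => ?_
    calc _ = ∑ γ : T, ch a χ γ y * (c (fun i => (g i : G)) * ch a χ (g 0) y' *
          Dg a χ s h (fun i => (g i : G)) x) := by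
          refine Finset.sum_congr rfl fun γ _ => ?_
          rw [hS]
          have e2 : (Fin.insertNth (α := fun _ : Fin (n + 2) => (T : Type _)) 1 γ g) 1 = γ :=
            Fin.insertNth_apply_same _ _ _
          have e3 : ∀ j, (Fin.insertNth (α := fun _ : Fin (n + 2) => (T : Type _)) 1 γ g)
              (Fin.succAbove 1 j) = g j := fun j => Fin.insertNth_apply_succAbove _ _ _ _
          have e1 := e3 0
          rw [Fin.one_succAbove_zero] at e1
          have e4 : Dg a χ s h (fun j => ((Fin.insertNth (α := fun _ : Fin (n + 2) => (T : Type _))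
              1 γ g) j.succ : G)) x = Dg a χ s h (fun i => (g i : G)) x := by
            refine Dg_congr a χ s h (fun i => ?_) x
            have e5 := e3 i.succ
            rw [Fin.one_succAbove_succ] at e5
            rw [e5]
          simp only [Fin.insertNthEquiv_apply]
          rw [e1, e2, e4]
          simp only [e3]
          ring
      _ = _ := by rw [← Finset.sum_mul, hy, one_mul]
  have h3 : ∀ i : Fin n, ∑ g, S i.succ.succ g = 0 := by
    intro i
    refine sum_upd i.succ.succ _ fun g => ?_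
    have e1 : ∀ γ : T, S i.succ.succ (Function.update g i.succ.succ γ) =
        ch a χ (g 0) y' * ch a χ (g 1) y * c (fun j => (g (i.succ.succ.succAbove j) : G)) *
          (mt (Function.update (rwc a χ s h fun j => (g j.succ : G))
            (Fin.cast h (Fin.castAdd k i)) (ch a χ γ)) x).det := by
      intro γ
      rw [hS]
      have e2 : Function.update g i.succ.succ γ 0 = g 0 :=
        Function.update_of_ne (Fin.succ_ne_zero _).symm _ _
      have e3 : Function.update g i.succ.succ γ 1 = g 1 :=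
        Function.update_of_ne (fun h' => Fin.succ_ne_zero i (Fin.succ_injective _ h').symm) _ _
      have e4 : ∀ j, Function.update g i.succ.succ γ (i.succ.succ.succAbove j) =
          g (i.succ.succ.succAbove j) := fun j =>
        Function.update_of_ne (Fin.succAbove_ne _ _) _ _
      have e5 : (fun j : Fin (n + 1) => ((Function.update g i.succ.succ γ) j.succ : G)) =
          Function.update (fun j : Fin (n + 1) => (g j.succ : G)) i.succ γ := by
        funext j
        by_cases hj : j = i.succ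
        · subst hj
          rw [Function.update_self, Function.update_self]
        · rw [Function.update_of_ne hj, Function.update_of_ne fun h' => hj (Fin.succ_injective _ h')]
      show ch a χ (Function.update g i.succ.succ γ 0) y' *
        ch a χ (Function.update g i.succ.succ γ 1) y *
        c (fun j => (Function.update g i.succ.succ γ (i.succ.succ.succAbove j) : G)) *
        Dg a χ s h (fun j => ((Function.update g i.succ.succ γ) j.succ : G)) x = _
      rw [e2, e3, e5]
      simp only [e4]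
      unfold Dg
      rw [rwc_upd]
    simp only [e1]
    rw [← Finset.mul_sum]
    have e2 := det_upd (fun (γ : T) => ch a χ γ) (rwc a χ s h fun j => (g j.succ : G)) x
      (Fin.cast h (Fin.castAdd k i)) hx
    rw [e2, mul_zero]
  rw [Fin.sum_univ_succ, Fin.sum_univ_succ] at h0
  simp only [h3, mul_zero, Finset.sum_const_zero, add_zero, Fin.succ_zero_eq_one] at h0
  rw [h1, h2] at h0
  simp only [Fin.val_zero, pow_zero, one_mul, Fin.val_one, pow_one] at h0
  linarith

theorem exists_T {a : Act G (2 * m)} (hp : IsProper a) {χ : V (2 * m) → ℝ} (hχ : IsPU a χ)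
    (R : ℝ) : ∃ T : Finset G, ∀ y, ‖y‖ ≤ R →
      (∀ γ, ch a χ γ y ≠ 0 → γ ∈ T) ∧ ∑ γ : T, ch a χ γ y = 1 := by
  classical
  obtain ⟨R', -, hR'⟩ := E1x.exists_radius_supp hχ.supp
  have hT := E1x.finite_inv hp R R'
  have h1 : ∀ y, ‖y‖ ≤ R → ∀ γ, ch a χ γ y ≠ 0 → γ ∈ hT.toFinset := by
    intro y hy γ hγ
    rw [Set.Finite.mem_toFinset]
    exact ⟨y, hy, hR' _ (subset_tsupport χ hγ)⟩
  refine ⟨hT.toFinset, fun y hy => ⟨h1 y hy, ?_⟩⟩
  rw [Finset.sum_coe_sort hT.toFinset fun γ => ch a χ γ y, ← hχ.sum y]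
  exact (finsum_eq_sum_of_support_subset _ fun γ hγ => h1 y hy γ hγ).symm

theorem phi_eq {a : Act G (2 * m)} {χ : V (2 * m) → ℝ} (s : V (2 * m) → V k)
    (h : n + k = 2 * m) (c : (Fin (n + 1) → G) → ℝ) {T : Finset G}
    {x : Fin (2 * m + 1) → V (2 * m)} (hT : ∀ j γ, ch a χ γ (x j) ≠ 0 → γ ∈ T) :
    phi a χ s h c x = Ph a χ s h c T (x 0) x := by
  classical
  set ι : (Fin (n + 1) → T) × Equiv.Perm (Fin (2 * m)) → Ind G m n :=
    fun p => (fun i => (p.1 i : G), p.2) with hι
  have hinj : Function.Injective ι := by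
    rintro ⟨g, σ⟩ ⟨g', σ'⟩ hgg
    have h1 := congrArg Prod.fst hgg
    have h2 : σ = σ' := congrArg Prod.snd hgg
    refine Prod.ext ?_ h2
    funext i
    exact Subtype.ext (congrFun h1 i)
  have hsupp : (Function.support fun α : Ind G m n => psi0 a χ c α (x 0) *
      ∏ j : Fin (2 * m), (psi a χ s h α j (x j.succ) - psi a χ s h α j (x j.castSucc))) ⊆
      Set.range ι := by
    rintro ⟨g, σ⟩ hα
    rw [Function.mem_support] at hα
    have h1 := left_ne_zero_of_mul hα
    have h2 := right_ne_zero_of_mul hα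
    have h3 : g 0 ∈ T := by
      refine hT 0 _ fun h4 => h1 ?_
      unfold psi0
      rw [h4, mul_zero]
    have h4 : ∀ i : Fin n, g i.succ ∈ T := by
      intro i
      set j := σ.symm (Fin.cast h (Fin.castAdd k i)) with hj
      have h5 := Finset.prod_ne_zero_iff.1 h2 j (Finset.mem_univ j)
      have h6 : ∀ y, psi a χ s h (g, σ) j y = ch a χ (g i.succ) y := by
        intro y
        unfold psi rwc rw'
        simp [hj]
      rw [h6, h6] at h5
      by_contra h7
      have h8 : ∀ j, ch a χ (g i.succ) (x j) = 0 := fun j => by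
        by_contra h9
        exact h7 (hT j _ h9)
      rw [h8, h8, sub_zero] at h5
      exact h5 rfl
    have h5 : ∀ i, g i ∈ T := fun i => Fin.cases h3 h4 i
    exact ⟨(fun i => ⟨g i, h5 i⟩, σ), rfl⟩
  unfold phi
  rw [← hinj.tsum_eq hsupp, tsum_fintype, Fintype.sum_prod_type]
  unfold Ph Dg
  refine Finset.sum_congr rfl fun g _ => ?_
  rw [det_mt, Finset.mul_sum]
  refine Finset.sum_congr rfl fun σ _ => ?_
  show ((Equiv.Perm.sign σ : ℤ) : ℝ) * c (fun i => (g i : G)) * ch a χ (g 0) (x 0) *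
    ∏ j : Fin (2 * m), (rwc a χ s h (fun i => (g i : G)) (σ j) (x j.succ) -
      rwc a χ s h (fun i => (g i : G)) (σ j) (x j.castSucc)) = _
  ring

/-- The sum over a large finite set, with an arbitrary base point. -/
theorem exists_Ph {a : Act G (2 * m)} (hp : IsProper a) {χ : V (2 * m) → ℝ} (hχ : IsPU a χ)
    (s : V (2 * m) → V k) (h : n + k = 2 * m) {c : (Fin (n + 1) → G) → ℝ}
    (hc : ∀ g : Fin (n + 2) → G,
      ∑ i : Fin (n + 2), (-1 : ℝ) ^ (i : ℕ) * c (fun j => g (i.succAbove j)) = 0) (R : ℝ) :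
    ∃ T : Finset G, ∀ (y : V (2 * m)) (x : Fin (2 * m + 1) → V (2 * m)), ‖y‖ ≤ R →
      (∀ j, ‖x j‖ ≤ R) → phi a χ s h c x = Ph a χ s h c T y x := by
  obtain ⟨T, hT⟩ := exists_T hp hχ R
  refine ⟨T, fun y x hy hx => ?_⟩
  rw [phi_eq s h c (T := T) fun j γ hγ => (hT _ (hx j)).1 γ hγ]
  exact Ph_indep a χ s h hc T x (hT _ (hx 0)).2 (hT _ hy).2 fun j => (hT _ (hx j)).2

theorem exists_R {N : ℕ} (x : Fin N → V (2 * m)) : ∃ R : ℝ, ∀ j, ‖x j‖ ≤ R :=
  ⟨∑ j, ‖x j‖, fun j => Finset.single_le_sum (f := fun j => ‖x j‖) (fun _ _ => norm_nonneg _)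
    (Finset.mem_univ j)⟩

theorem phi_rot {a : Act G (2 * m)} (hp : IsProper a) {χ : V (2 * m) → ℝ} (hχ : IsPU a χ)
    (s : V (2 * m) → V k) (h : n + k = 2 * m) {c : (Fin (n + 1) → G) → ℝ}
    (hc : ∀ g : Fin (n + 2) → G,
      ∑ i : Fin (n + 2), (-1 : ℝ) ^ (i : ℕ) * c (fun j => g (i.succAbove j)) = 0)
    (x : Fin (2 * m + 1) → V (2 * m)) :
    phi a χ s h c (fun i => x (i + 1)) = phi a χ s h c x := by
  obtain ⟨R, hR⟩ := exists_R x
  obtain ⟨T, hT⟩ := exists_Ph hp hχ s h hc R
  rw [hT (x 0) x (hR 0) hR, hT (x 0) _ (hR 0) fun j => hR (j + 1)]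
  unfold Ph
  refine Finset.sum_congr rfl fun g _ => ?_
  unfold Dg
  rw [det_rot (even_two_mul m)]

theorem phi_coc {a : Act G (2 * m)} (hp : IsProper a) {χ : V (2 * m) → ℝ} (hχ : IsPU a χ)
    (s : V (2 * m) → V k) (h : n + k = 2 * m) {c : (Fin (n + 1) → G) → ℝ}
    (hc : ∀ g : Fin (n + 2) → G,
      ∑ i : Fin (n + 2), (-1 : ℝ) ^ (i : ℕ) * c (fun j => g (i.succAbove j)) = 0)
    (x : Fin (2 * m + 2) → V (2 * m)) :
    ∑ i : Fin (2 * m + 2), (-1 : ℝ) ^ (i : ℕ) * phi a χ s h c (fun j => x (i.succAbove j)) = 0 := by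
  obtain ⟨R, hR⟩ := exists_R x
  obtain ⟨T, hT⟩ := exists_Ph hp hχ s h hc R
  have h1 : ∀ i : Fin (2 * m + 2), phi a χ s h c (fun j => x (i.succAbove j)) =
      Ph a χ s h c T (x 0) (fun j => x (i.succAbove j)) := fun i => hT _ _ (hR 0) fun j => hR _
  simp only [h1]
  unfold Ph
  simp only [Finset.mul_sum]
  rw [Finset.sum_comm]
  refine Finset.sum_eq_zero fun g _ => ?_
  calc _ = c (fun i => (g i : G)) * ch a χ (g 0) (x 0) * ∑ i : Fin (2 * m + 2),
        (-1 : ℝ) ^ (i : ℕ) * (mt (rwc a χ s h fun i => (g i : G)) fun j => x (i.succAbove j)).det := by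
        rw [Finset.mul_sum]
        refine Finset.sum_congr rfl fun i _ => ?_
        unfold Dg
        ring
    _ = 0 := by rw [det_coc, mul_zero]

theorem phi_inv {a : Act G (2 * m)} {χ : V (2 * m) → ℝ} {s : V (2 * m) → V k} (hs : IsAdd a s)
    (h : n + k = 2 * m) {c : (Fin (n + 1) → G) → ℝ} (hc : ∀ γ g, c (fun i => γ * g i) = c g)
    (γ : G) (x : Fin (2 * m + 1) → V (2 * m)) :
    phi a χ s h c (fun i => a.act γ (x i)) = phi a χ s h c x := by
  unfold phi
  set e : Ind G m n ≃ Ind G m n := Equiv.prodCongr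
    (Equiv.arrowCongr (Equiv.refl _) (Equiv.mulLeft γ)) (Equiv.refl _) with he
  rw [← e.tsum_eq]
  refine tsum_congr fun α => ?_
  have hch : ∀ (δ : G) (y : V (2 * m)), ch a χ (γ * δ) (a.act γ y) = ch a χ δ y := by
    intro δ y
    unfold ch
    rw [← a.mul, mul_inv_rev, inv_mul_cancel_right]
  have h1 : psi0 a χ c (e α) (a.act γ (x 0)) = psi0 a χ c α (x 0) := by
    show ((Equiv.Perm.sign α.2 : ℤ) : ℝ) * c (fun i => γ * α.1 i) *
      ch a χ (γ * α.1 0) (a.act γ (x 0)) = _
    rw [hc, hch]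
    rfl
  obtain ⟨t, ht⟩ := hs.add γ
  have h2 : ∀ (j : Fin (2 * m)) (y y' : V (2 * m)),
      psi a χ s h (e α) j (a.act γ y) - psi a χ s h (e α) j (a.act γ y') =
        psi a χ s h α j y - psi a χ s h α j y' := by
    intro j y y'
    show rw' a χ s (fun i => γ * α.1 i) (Fin.cast h.symm (α.2 j)) (a.act γ y) -
      rw' a χ s (fun i => γ * α.1 i) (Fin.cast h.symm (α.2 j)) (a.act γ y') =
      rw' a χ s α.1 (Fin.cast h.symm (α.2 j)) y - rw' a χ s α.1 (Fin.cast h.symm (α.2 j)) y'
    refine Fin.addCases (fun i => ?_) (fun i => ?_) (Fin.cast h.symm (α.2 j))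
    · unfold rw'
      simp only [Fin.addCases_left, hch]
    · unfold rw'
      simp only [Fin.addCases_right, ht]
      ring
  rw [h1]
  congr 1
  exact Finset.prod_congr rfl fun j _ => h2 j _ _

end G6x

variable {G : Type*} [Group G] [Countable G] {m n k : ℕ}

open G6x in
/-- The properties of `φ`. -/
theorem isPhi {a : Act G (2 * m)} {F₀ : Set (V (2 * m))} (hF₀ : a.Fund F₀) (hp : IsProper a)
    (h : n + k = 2 * m) {s : V (2 * m) → V k} (hs : IsAdd a s) {ℓ ℓ' : G → ℝ} (hℓ : IsLen ℓ)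
    (hℓ' : IsLen ℓ') (hle : ∀ γ, ℓ γ ≤ ℓ' γ)
    (ht : ∀ (γ : G) (t : Fin k → ℝ), (∀ y j, s (a.act γ y) j = s y j + t j) → ∀ j, |t j| ≤ ℓ' γ)
    {δ : ℝ} (hδ : 0 < δ) {c : (Fin (n + 1) → G) → ℝ} (hc : IsCoc ℓ δ c)
    {χ : V (2 * m) → ℝ} (hχ : IsPU a χ) :
    IsPhi a.act (tw hF₀ ℓ' (2 * δ)) (phi a χ s h c) :=
  ⟨(continuous_phi hp h hs c hχ).measurable, phi_inv hs h hc.inv, phi_rot hp hχ s h hc.coc,
    phi_coc hp hχ s h hc.coc, phi_bdd hF₀ hp h hs hℓ hℓ' hle ht hδ hc hχ⟩

/-- The group part. -/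
theorem group_part (C : Cliff m) (g : Geo (2 * m)) (a : Act G (2 * m)) (ha : a.Iso g)
    {F₀ : Set (V (2 * m))} (hF₀ : a.Fund F₀) (hp : IsProper a) (h : n + k = 2 * m)
    {s : V (2 * m) → V k} (hs : IsAdd a s) {ℓ : G → ℝ} (hℓ : IsLen ℓ) :
    ∃ ℓ' : G → ℝ, IsLen ℓ' ∧
      (∀ (γ : G) (t : Fin k → ℝ), (∀ y j, s (a.act γ y) j = s y j + t j) → ∀ j, |t j| ≤ ℓ' γ) ∧
      ∀ δ : ℝ, 0 < δ → ∀ c : (Fin (n + 1) → G) → ℝ, IsCoc ℓ δ c →
      ∀ F : Set (V (2 * m)), a.Fund F → ∀ χ : V (2 * m) → ℝ, IsPU a χ →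
        IsPhi a.act (tw hF₀ ℓ' (2 * δ)) (phi a χ s h c) ∧
        IsExp F C.eps (tw hF₀ ℓ' (2 * δ)) (phi a χ s h c) (psi0 a χ c) (psi a χ s h)
          (fun α j => cd C g (psi a χ s h α j)) := by
  obtain ⟨ℓ', hℓ', hle, ht⟩ := G5x.exists_len hs hℓ
  refine ⟨ℓ', hℓ', ht, fun δ hδ c hc F _ χ hχ => ?_⟩
  exact ⟨isPhi hF₀ hp h hs hℓ hℓ' hle ht hδ hc hχ,
    isExp C g ha hF₀ hp h hs hℓ hℓ' hle ht hδ hc F hχ⟩

end Pool.Agent.Lib.MP_df705a_gt.SV
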