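import Pool.Agent.Lib.MP_df705a_gt.Mg.G033
import Pool.Agent.Lib.MP_df705a_gt.Mg.G088

/-!
# SV, P4: the sup bound for the resolvent
-/

open scoped ContDiff InnerProductSpace Matrix ENNReal NNReal Topology
open MeasureTheory Filter Set

noncomputable section

namespace Pool.Agent.Lib.MP_df705a_gt.SV

open Pool.Agent.Lib.MP_df705a_gt.RL

variable {m : ℕ}

/-- Symmetry extends to the closure of the graph. -/
theorem symm_closure (C : Cliff m) (g : Geo (2 * m)) {B : Pot (2 * m)} (hB : IsPot B)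
    {p : g.L2 × g.L2} (hp : p ∈ closure (C.Gr g B : Set (g.L2 × g.L2)))
    {ψ : V (2 * m) → Sp m} (hψ : IsTF ψ) :
    ⟪p.2, g.emb ψ⟫_ℂ = ⟪p.1, g.emb (C.dirac g B ψ)⟫_ℂ := by
  have hcl : IsClosed {p : g.L2 × g.L2 | ⟪p.2, g.emb ψ⟫_ℂ = ⟪p.1, g.emb (C.dirac g B ψ)⟫_ℂ} :=
    isClosed_eq (continuous_snd.inner continuous_const) (continuous_fst.inner continuous_const)
  refine hcl.closure_subset_iff.2 (fun p hp => ?_) hp
  obtain ⟨φ, hφ, rfl⟩ := (mem_Gr C g hB p).1 hp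
  exact dirac_symm C g hB hφ hψ

/-- The truncated inequality on the closure of the graph. -/
theorem kato_closure (C : Cliff m) (g : Geo (2 * m)) {B : Pot (2 * m)} (hB : IsPot B) {σ : ℝ}
    (hσ0 : 0 ≤ σ) (hσ : ∀ y, σ ≤ g.scal y / 4 - (1 / 2) * ∑ a, ∑ b, |g.fr (dPot B) y a b|)
    {θ : ℝ → ℝ} {K : ℝ} (hK : 0 ≤ K) (hθ : IsThe θ K) {u v w : g.L2}
    (h1 : (u, v) ∈ closure (C.Gr g B : Set (g.L2 × g.L2)))
    (h2 : (v, w) ∈ closure (C.Gr g B : Set (g.L2 × g.L2))) :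
    σ * RCLike.re ⟪(lipschitz_trM hK hθ).compLp (trM_zero θ) u, u⟫_ℂ
      ≤ RCLike.re ⟪w, (lipschitz_trM hK hθ).compLp (trM_zero θ) u⟫_ℂ := by
  set T : g.L2 → g.L2 := (lipschitz_trM hK hθ).compLp (trM_zero θ) with hT
  have hTc : Continuous T := ((lipschitz_trM hK hθ).lipschitzWith_compLp (trM_zero θ)).continuous
  have hσ' : ∀ y, 0 ≤ g.scal y / 4 - (1 / 2) * ∑ a, ∑ b, |g.fr (dPot B) y a b| := fun y =>
    hσ0.trans (hσ y)
  obtain ⟨x, hx, hxl⟩ := mem_closure_iff_seq_limit.1 h1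
  choose φ hφ hφx using fun n => (mem_Gr C g hB (x n)).1 (hx n)
  have hu : Tendsto (fun n => g.emb (φ n)) atTop (𝓝 u) := by
    have := (continuous_fst.tendsto _).comp hxl
    refine this.congr fun n => ?_
    simp [hφx n]
  have hv : Tendsto (fun n => g.emb (C.dirac g B (φ n))) atTop (𝓝 v) := by
    have := (continuous_snd.tendsto _).comp hxl
    refine this.congr fun n => ?_
    simp [hφx n]
  have hψ := fun n => isTF_trf hθ (hφ n)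
  have hTe : ∀ n, T (g.emb (φ n)) = g.emb fun y => (trf θ (φ n) y : ℂ) • φ n y := by
    intro n
    refine Lp.ext ?_
    filter_upwards [(lipschitz_trM hK hθ).coeFn_compLp (trM_zero θ) (g.emb (φ n)),
      g.emb_coe (g.memLp_tf (hφ n)), g.emb_coe (g.memLp_tf (hψ n))] with y e1 e2 e3
    rw [hT, e1, e3, Function.comp_apply, e2]
    rfl
  have hineq : ∀ n, σ * RCLike.re ⟪T (g.emb (φ n)), g.emb (φ n)⟫_ℂ
      ≤ RCLike.re ⟪w, T (g.emb (φ n))⟫_ℂ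
        + ‖g.emb (C.dirac g B (φ n)) - v‖ * ((1 + 2 * K) * ‖g.emb (C.dirac g B (φ n))‖) := by
    intro n
    have e1 := lich_trf C g hB hσ hθ (hφ n)
    have e2 : RCLike.re ⟪T (g.emb (φ n)), g.emb (φ n)⟫_ℂ
        = ∫ y, trf θ (φ n) y * ‖φ n y‖ ^ 2 ∂g.vol := by
      rw [hTe, g.inner_emb (g.memLp_tf (hψ n)) (g.memLp_tf (hφ n)),
        ← integral_re (Y5_int g (hψ n) (hφ n).1.continuous)]
      refine integral_congr_ae (Filter.Eventually.of_forall fun y => ?_)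
      show RCLike.re ⟪(trf θ (φ n) y : ℂ) • φ n y, φ n y⟫_ℂ = _
      rw [inner_smul_left, Complex.conj_ofReal, p2_re, inner_self_eq_norm_sq]
    have e3 : ⟪w, T (g.emb (φ n))⟫_ℂ
        = ⟪v, g.emb (C.dirac g B fun y => (trf θ (φ n) y : ℂ) • φ n y)⟫_ℂ := by
      rw [hTe]
      exact symm_closure C g hB h2 (hψ n)
    have e4 := norm_dirac_trf C g hB hσ' hK hθ (hφ n)
    have e5 : RCLike.re ⟪g.emb (C.dirac g B (φ n)),
          g.emb (C.dirac g B fun y => (trf θ (φ n) y : ℂ) • φ n y)⟫_ℂ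
        = RCLike.re ⟪w, T (g.emb (φ n))⟫_ℂ + RCLike.re ⟪g.emb (C.dirac g B (φ n)) - v,
          g.emb (C.dirac g B fun y => (trf θ (φ n) y : ℂ) • φ n y)⟫_ℂ := by
      rw [e3, inner_sub_left, map_sub]
      ring
    have e6 : RCLike.re ⟪g.emb (C.dirac g B (φ n)) - v,
          g.emb (C.dirac g B fun y => (trf θ (φ n) y : ℂ) • φ n y)⟫_ℂ
        ≤ ‖g.emb (C.dirac g B (φ n)) - v‖ * ((1 + 2 * K) * ‖g.emb (C.dirac g B (φ n))‖) :=
      (RCLike.re_le_norm _).trans ((norm_inner_le_norm _ _).trans (by gcongr))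
    rw [e2]
    linarith
  have l1 : Tendsto (fun n => σ * RCLike.re ⟪T (g.emb (φ n)), g.emb (φ n)⟫_ℂ) atTop
      (𝓝 (σ * RCLike.re ⟪T u, u⟫_ℂ)) := by
    refine Tendsto.const_mul _ ?_
    exact (RCLike.continuous_re.tendsto _).comp ((hTc.tendsto u |>.comp hu).inner hu)
  have l2 : Tendsto (fun n => RCLike.re ⟪w, T (g.emb (φ n))⟫_ℂ
        + ‖g.emb (C.dirac g B (φ n)) - v‖ * ((1 + 2 * K) * ‖g.emb (C.dirac g B (φ n))‖)) atTop
      (𝓝 (RCLike.re ⟪w, T u⟫_ℂ + ‖v - v‖ * ((1 + 2 * K) * ‖v‖))) := by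
    refine Tendsto.add ?_ ?_
    · exact (RCLike.continuous_re.tendsto _).comp
        ((tendsto_const_nhds (x := w)).inner ((hTc.tendsto u).comp hu))
    · exact ((hv.sub tendsto_const_nhds).norm).mul ((hv.norm).const_mul _)
  have l3 := le_of_tendsto_of_tendsto' l1 l2 hineq
  rw [sub_self, norm_zero, zero_mul, add_zero] at l3
  exact l3

/-- The sup bound for the resolvent: if `u + t² D² u = f` and `|f| ≤ k`, then
`|u| ≤ k / (1 + t² σ)`. -/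
theorem sup_bound (C : Cliff m) (g : Geo (2 * m)) {B : Pot (2 * m)} (hB : IsPot B) {σ : ℝ}
    (hσ0 : 0 ≤ σ) (hσ : ∀ y, σ ≤ g.scal y / 4 - (1 / 2) * ∑ a, ∑ b, |g.fr (dPot B) y a b|)
    {t : ℝ} (ht : 0 < t) {u v f : g.L2}
    (h1 : (u, v) ∈ closure (C.Gr g B : Set (g.L2 × g.L2)))
    (h2 : (v, (((t ^ 2)⁻¹ : ℝ) : ℂ) • (f - u)) ∈ closure (C.Gr g B : Set (g.L2 × g.L2)))
    {k : ℝ} (hk : 0 ≤ k) (hf : ∀ᵐ y ∂g.vol, ‖f y‖ ≤ k) :
    ∀ᵐ y ∂g.vol, ‖u y‖ ≤ k / (1 + t ^ 2 * σ) := by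
  have ht2 : 0 < t ^ 2 := by positivity
  have hs : 0 < 1 + t ^ 2 * σ := by positivity
  set k' : ℝ := k / (1 + t ^ 2 * σ) with hk'
  have hk'0 : 0 ≤ k' := by positivity
  obtain ⟨K, hK, hθ⟩ := isThe_theS k'
  set T : g.L2 → g.L2 := (lipschitz_trM hK hθ).compLp (trM_zero (theS k')) with hT
  have e0 := kato_closure C g hB hσ0 hσ hK hθ h1 h2
  have e1 : (1 + t ^ 2 * σ) * RCLike.re ⟪T u, u⟫_ℂ ≤ RCLike.re ⟪f, T u⟫_ℂ := by
    have e2 : RCLike.re ⟪(((t ^ 2)⁻¹ : ℝ) : ℂ) • (f - u), T u⟫_ℂ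
        = (t ^ 2)⁻¹ * (RCLike.re ⟪f, T u⟫_ℂ - RCLike.re ⟪u, T u⟫_ℂ) := by
      rw [inner_smul_left, Complex.conj_ofReal, p2_re, inner_sub_left, map_sub]
    rw [← hT, e2] at e0
    have e3 : RCLike.re ⟪u, T u⟫_ℂ = RCLike.re ⟪T u, u⟫_ℂ := inner_re_symm (𝕜 := ℂ) _ _
    rw [e3] at e0
    have e4 := mul_le_mul_of_nonneg_left e0 ht2.le
    rw [← mul_assoc (t ^ 2) (t ^ 2)⁻¹, mul_inv_cancel₀ ht2.ne', one_mul] at e4
    linarith
  have hTy : ∀ᵐ y ∂g.vol, T u y = ((theS k' (‖u y‖ ^ 2) : ℝ) : ℂ) • u y := by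
    filter_upwards [(lipschitz_trM hK hθ).coeFn_compLp (trM_zero (theS k')) u] with y hy
    exact hy
  -- the integrand
  set F : V (2 * m) → ℝ := fun y => (1 + t ^ 2 * σ) * RCLike.re ⟪T u y, u y⟫_ℂ
    - RCLike.re ⟪f y, T u y⟫_ℂ with hF
  have i1 : Integrable (fun y => ⟪T u y, u y⟫_ℂ) g.vol := L2.integrable_inner _ _
  have i2 : Integrable (fun y => ⟪f y, T u y⟫_ℂ) g.vol := L2.integrable_inner _ _
  have iF : Integrable F g.vol := (i1.re.const_mul _).sub i2.re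
  have hint : ∫ y, F y ∂g.vol ≤ 0 := by
    have e5 : ∫ y, F y ∂g.vol = (1 + t ^ 2 * σ) * RCLike.re ⟪T u, u⟫_ℂ
        - RCLike.re ⟪f, T u⟫_ℂ := by
      rw [hF, integral_sub (i1.re.const_mul _) i2.re, integral_const_mul, integral_re i1,
        integral_re i2, L2.inner_def, L2.inner_def]
    rw [e5]
    linarith
  have hlow : ∀ᵐ y ∂g.vol, theS k' (‖u y‖ ^ 2) * ‖u y‖ * ((1 + t ^ 2 * σ) * ‖u y‖ - k) ≤ F y := by
    filter_upwards [hTy, hf] with y e6 e7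
    have h0 : 0 ≤ theS k' (‖u y‖ ^ 2) := hθ.nonneg _
    have e8 : RCLike.re ⟪T u y, u y⟫_ℂ = theS k' (‖u y‖ ^ 2) * ‖u y‖ ^ 2 := by
      rw [e6, inner_smul_left, Complex.conj_ofReal, p2_re, inner_self_eq_norm_sq]
    have e9 : RCLike.re ⟪f y, T u y⟫_ℂ ≤ theS k' (‖u y‖ ^ 2) * (k * ‖u y‖) := by
      rw [e6, inner_smul_right, p2_re]
      refine mul_le_mul_of_nonneg_left ?_ h0
      exact (RCLike.re_le_norm _).trans ((norm_inner_le_norm _ _).trans (by gcongr))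
    simp only [hF]
    rw [e8]
    nlinarith
  have hpt : ∀ y, 0 ≤ theS k' (‖u y‖ ^ 2) * ‖u y‖ * ((1 + t ^ 2 * σ) * ‖u y‖ - k) ∧
      (theS k' (‖u y‖ ^ 2) * ‖u y‖ * ((1 + t ^ 2 * σ) * ‖u y‖ - k) = 0 → ‖u y‖ ≤ k') := by
    intro y
    by_cases h : ‖u y‖ ≤ k'
    · have h3 : ‖u y‖ ^ 2 ≤ k' ^ 2 := by gcongr
      rw [theS_zero h3]
      simp [h]
    · have h3 : k' < ‖u y‖ := not_le.1 h
      have h4 : k' ^ 2 < ‖u y‖ ^ 2 := by gcongr
      have h5 := theS_pos h4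
      have h6 : 0 < ‖u y‖ := hk'0.trans_lt h3
      have h7 : 0 < (1 + t ^ 2 * σ) * ‖u y‖ - k := by
        rw [hk', div_lt_iff₀ hs] at h3
        linarith
      have h8 : 0 < theS k' (‖u y‖ ^ 2) * ‖u y‖ * ((1 + t ^ 2 * σ) * ‖u y‖ - k) := by positivity
      exact ⟨h8.le, fun h9 => absurd h9 h8.ne'⟩
  have hF0 : 0 ≤ᵐ[g.vol] F := by
    filter_upwards [hlow] with y hy
    exact (hpt y).1.trans hy
  have hFz : F =ᵐ[g.vol] 0 :=
    (integral_eq_zero_iff_of_nonneg_ae hF0 iF).1 (le_antisymm hint (integral_nonneg_of_ae hF0))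
  filter_upwards [hlow, hFz] with y h3 h4
  rw [h4] at h3
  exact (hpt y).2 (le_antisymm h3 (hpt y).1)

end Pool.Agent.Lib.MP_df705a_gt.SV
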