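import Pool.Agent.Lib.MP_df705a_gt.Mg.G075
import Pool.Agent.Lib.MP_df705a_gt.SV.P4
import Pool.Agent.Lib.MP_df705a_gt.Mg.G089
import Pool.Agent.Lib.MP_df705a_gt.Mg.G088

/-!
# SV, Q10: from small times to all times
-/

open scoped ContDiff InnerProductSpace Matrix ENNReal NNReal Topology
open MeasureTheory Filter Set

set_option autoImplicit false
set_option linter.unusedSectionVars false

noncomputable section

namespace Pool.Agent.Lib.MP_df705a_gt.SV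

open Pool.Agent.Lib.MP_df705a_gt.RL

variable {G : Type*} [Group G] [Countable G] {m : ℕ}

/-- The resolvent is a strict contraction of the sup norm. -/
theorem res_sup (C : Cliff m) (g : Geo (2 * m)) {σ : ℝ} (hσ : 0 < σ)
    (hs : ∀ y, 4 * σ ≤ g.scal y) {t : ℝ} (ht : 0 < t) {R B : g.L2 →L[ℂ] g.L2}
    (h : IsRes (C.Gr g 0).topologicalClosure t R B) (u : g.L2) (c : ℝ) (hc : 0 ≤ c)
    (hu : ∀ᵐ x ∂g.vol, ‖u x‖ ≤ c) : ∀ᵐ x ∂g.vol, ‖R u x‖ ≤ (1 + t ^ 2 * σ)⁻¹ * c := by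
  obtain ⟨h1, h2⟩ := h u
  have h3 := Submodule.smul_mem _ ((t⁻¹ : ℝ) : ℂ) h2
  have e0 : ∀ p : g.L2 × g.L2, p ∈ (C.Gr g 0).topologicalClosure →
      p ∈ closure (C.Gr g 0 : Set (g.L2 × g.L2)) := fun p hp => by
    rw [← Submodule.topologicalClosure_coe]
    exact hp
  have e1 : ((t⁻¹ : ℝ) : ℂ) • (B u, ((t⁻¹ : ℝ) : ℂ) • (u - R u))
      = (((t⁻¹ : ℝ) : ℂ) • B u, (((t ^ 2)⁻¹ : ℝ) : ℂ) • (u - R u)) := by
    rw [Prod.smul_mk, smul_smul, ← Complex.ofReal_mul]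
    congr 3
    rw [← mul_inv, sq]
  rw [e1] at h3
  have h4 : ∀ y, σ ≤ g.scal y / 4
      - (1 / 2) * ∑ a, ∑ b, |g.fr (dPot (0 : Pot (2 * m))) y a b| := by
    intro y
    have e2 : dPot (0 : Pot (2 * m)) y = 0 := by
      ext μ ν
      unfold dPot pd
      simp
    have e3 : ∑ a, ∑ b, |g.fr (dPot (0 : Pot (2 * m))) y a b| = 0 := by
      unfold Geo.fr
      rw [e2]
      simp
    rw [e3]
    have := hs y
    linarith
  have h5 := sup_bound C g isPot_zero hσ.le h4 ht (e0 _ h1) (e0 _ h3) hc hu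
  filter_upwards [h5] with x hx
  rw [div_eq_inv_mul] at hx
  exact hx

omit [Countable G] in
theorem tw_rpow {a : Act G (2 * m)} {F : Set (V (2 * m))} (hF : a.Fund F) (ℓ : G → ℝ)
    (δ θ : ℝ) : (fun x y => tw hF ℓ δ x y ^ θ) = tw hF ℓ (δ * θ) := by
  funext x y
  unfold tw
  rw [← Real.exp_mul]
  congr 1
  ring

omit [Countable G] in
theorem tw_mono {a : Act G (2 * m)} {F : Set (V (2 * m))} (hF : a.Fund F) {ℓ : G → ℝ}
    (hℓ : IsLen ℓ) {δ δ' : ℝ} (h : δ ≤ δ') (x y : V (2 * m)) : tw hF ℓ δ x y ≤ tw hF ℓ δ' x y := by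
  unfold tw
  exact Real.exp_le_exp.2 (mul_le_mul_of_nonneg_right h (hℓ.nonneg _))

omit [Countable G] in
theorem isLen_zero : IsLen (fun _ : G => (0 : ℝ)) :=
  ⟨rfl, fun _ => le_rfl, fun _ => rfl, fun _ _ => by norm_num⟩

omit [Countable G] in
/-- `SmallK` only depends on small times. -/
theorem SmallK.congr {a : Act G (2 * m)} {g : Geo (2 * m)} {w : V (2 * m) → V (2 * m) → ℝ}
    {ρ ρ' : ℝ → V (2 * m) → V (2 * m) → En m} (h : SmallK a g w ρ) {t₀ : ℝ} (ht₀ : 0 < t₀)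
    (he : ∀ t, t ≤ t₀ → ρ' t = ρ t) : SmallK a g w ρ' where
  fin := by
    obtain ⟨π, R, D, t₁, ht₁, h1, h2⟩ := h.fin
    refine ⟨π, R, D, min t₁ t₀, lt_min ht₁ ht₀, h1, fun t ht htt => ?_⟩
    rw [he t (htt.trans (min_le_right _ _))]
    exact h2 t ht (htt.trans (min_le_left _ _))
  model := by
    intro R
    obtain ⟨D, t₁, ht₁, h2⟩ := h.model R
    refine ⟨D, min t₁ t₀, lt_min ht₁ ht₀, fun t ht htt => ?_⟩
    rw [he t (htt.trans (min_le_right _ _))]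
    exact h2 t ht (htt.trans (min_le_left _ _))

theorem one_le_pN' (hm : 1 ≤ m) : 1 ≤ pN m := by
  have h1 : (0 : ℝ) < ((2 * m : ℕ) : ℝ) := by
    have : 0 < 2 * m := by omega
    exact_mod_cast this
  unfold pN
  rw [le_div_iff₀ h1]
  linarith

/-- The bound for `r = ε ρ + β`. -/
theorem KB.rk {C : Cliff m} {g : Geo (2 * m)} {w : V (2 * m) → V (2 * m) → ℝ} (hw : Wt w) {p : ℝ}
    (hp : 1 ≤ p) {ρ β : V (2 * m) → V (2 * m) → En m} {c : ℝ≥0} (h1 : KB g.vol w p ρ c c)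
    (h2 : KB g.vol w p β c c) :
    KB g.vol w p (SV.rk C ρ β) (‖C.eps‖₊ * c + c) (‖C.eps‖₊ * c + c) :=
  (h1.const_mul hw.meas (zero_le_one.trans hp) C.eps).add hw.meas hp h2

/-- All times from small times. -/
theorem kernels_of_small (hm : 1 ≤ m) (C : Cliff m) (g : Geo (2 * m)) (a : Act G (2 * m))
    (ha : a.Iso g) {F : Set (V (2 * m))} (hF : a.Fund F) {σ : ℝ} (hσ : 0 < σ)
    (hs : ∀ y, 4 * σ ≤ g.scal y) {Rt Bt : ℝ → g.L2 →L[ℂ] g.L2}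
    {ρ₀ β₀ : ℝ → V (2 * m) → V (2 * m) → En m} {t₀ : ℝ} (ht₀ : 0 < t₀) (ht₁ : t₀ ≤ 1)
    (hres : ∀ t : ℝ, 0 < t → IsRes (C.Gr g 0).topologicalClosure t (Rt t) (Bt t))
    (hker : ∀ t : ℝ, 0 < t → t ≤ t₀ → IsKer g.vol (Rt t) (ρ₀ t) ∧ IsKer g.vol (Bt t) (β₀ t))
    (hKB : ∀ ℓ : G → ℝ, IsLen ℓ → ∃ d₁ : ℝ, 0 < d₁ ∧ ∀ d : ℝ, 0 ≤ d → d ≤ d₁ →
      (∃ D : ℝ, ∀ t : ℝ, 0 < t → t ≤ t₀ →
        KB g.vol (tw hF ℓ d) (pN m) (ρ₀ t) D.toNNReal (sz m D t) ∧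
        KB g.vol (tw hF ℓ d) (pN m) (β₀ t) D.toNNReal (sz m D t)) ∧
      SmallK a g (tw hF ℓ d) ρ₀) :
    ∃ (U : G → V (2 * m) → En m) (r ρ : ℝ → V (2 * m) → V (2 * m) → En m),
      IsLift U (fun γ x => adj (U γ x)) C.eps ∧ Pack C g a U r ρ ∧
      ∀ ℓ : G → ℝ, IsLen ℓ → ∃ δ₀ : ℝ, 0 < δ₀ ∧ ∀ δ : ℝ, 0 ≤ δ → δ ≤ δ₀ →
        Bds g (tw hF ℓ δ) r ρ ∧ SmallK a g (tw hF ℓ δ) ρ := by
  have hG := symRel_Gr C g (B := 0) isPot_zero
  have hp := one_le_pN' hm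
  have p0 : 0 ≤ pN m := zero_le_one.trans hp
  set q : ℝ := (1 + t₀ ^ 2 * σ)⁻¹ with hq
  have hpos : 0 < t₀ ^ 2 * σ := by positivity
  have hq0 : 0 ≤ q := by positivity
  have hq1 : q < 1 := inv_lt_one_of_one_lt₀ (by linarith)
  -- the kernels for large times with weights
  have big : ∀ ℓ : G → ℝ, IsLen ℓ → ∃ d₁ : ℝ, 0 < d₁ ∧ (∀ d : ℝ, 0 ≤ d → d ≤ d₁ →
      (∃ D : ℝ, ∀ t : ℝ, 0 < t → t ≤ t₀ →
        KB g.vol (tw hF ℓ d) (pN m) (ρ₀ t) D.toNNReal (sz m D t) ∧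
        KB g.vol (tw hF ℓ d) (pN m) (β₀ t) D.toNNReal (sz m D t)) ∧
      SmallK a g (tw hF ℓ d) ρ₀) ∧ ∃ D : ℝ≥0, ∀ t, t₀ ≤ t →
        ∃ a' b' : V (2 * m) → V (2 * m) → En m, IsKer g.vol (Rt t) a' ∧ IsKer g.vol (Bt t) b' ∧
        KB g.vol (tw hF ℓ d₁) (pN m) a' (((t₀ / t) ^ 2).toNNReal * D)
          (((t₀ / t) ^ 2).toNNReal * D) ∧
        KB g.vol (tw hF ℓ d₁) (pN m) b' ((t₀ / t).toNNReal * D) ((t₀ / t).toNNReal * D) := by
    intro ℓ hℓ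
    obtain ⟨d₁, hd₁, h1⟩ := hKB ℓ hℓ
    obtain ⟨⟨D, hD⟩, -⟩ := h1 d₁ hd₁.le le_rfl
    obtain ⟨h2, h3⟩ := hD t₀ ht₀ le_rfl
    obtain ⟨h4, h5⟩ := hker t₀ ht₀ le_rfl
    obtain ⟨θ, hθ0, hθ1, D', hD'⟩ := big_kernels hG (wt_tw hF hℓ hd₁.le) hp ht₀ (hres t₀ ht₀)
      h2 h3 h4 h5 hq0 hq1 (res_sup C g hσ hs ht₀ (hres t₀ ht₀))
    refine ⟨d₁ * θ, by positivity, fun d hd0 hd => h1 d hd0
      (hd.trans (mul_le_of_le_one_right hd₁.le hθ1)), D', fun t ht => ?_⟩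
    have h6 := hD' t ht (Rt t) (Bt t) (hres t (ht₀.trans_le ht))
    rw [tw_rpow hF ℓ d₁ θ] at h6
    exact h6
  -- unweighted kernels
  have hex : ∀ t, t₀ < t → ∃ k : (V (2 * m) → V (2 * m) → En m) × (V (2 * m) → V (2 * m) → En m),
      IsKer g.vol (Rt t) k.1 ∧ IsKer g.vol (Bt t) k.2 ∧ ∃ c, KB1 g.vol k.1 c ∧ KB1 g.vol k.2 c := by
    intro t ht
    obtain ⟨d₁, hd₁, -, D, hD⟩ := big _ (isLen_zero (G := G))
    obtain ⟨a', b', h1, h2, h3, h4⟩ := hD t ht.le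
    have hw := wt_tw hF (isLen_zero (G := G)) hd₁.le
    have h5 := h3.mono p0 (le_max_left _ ((t₀ / t).toNNReal * D))
      (le_max_left _ ((t₀ / t).toNNReal * D))
    have h6 := h4.mono p0 (le_max_right (((t₀ / t) ^ 2).toNNReal * D) _)
      (le_max_right (((t₀ / t) ^ 2).toNNReal * D) _)
    exact ⟨(a', b'), h1, h2, _, h5.kb1 hw, h6.kb1 hw⟩
  classical
  set ρ : ℝ → V (2 * m) → V (2 * m) → En m := fun t =>
    if h : t₀ < t then (hex t h).choose.1 else ρ₀ t with hρdef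
  set β : ℝ → V (2 * m) → V (2 * m) → En m := fun t =>
    if h : t₀ < t then (hex t h).choose.2 else β₀ t with hβdef
  have hρs : ∀ t, t ≤ t₀ → ρ t = ρ₀ t := fun t ht => dif_neg (not_lt.2 ht)
  have hβs : ∀ t, t ≤ t₀ → β t = β₀ t := fun t ht => dif_neg (not_lt.2 ht)
  have good : ∀ t, 0 < t → IsKer g.vol (Rt t) (ρ t) ∧ IsKer g.vol (Bt t) (β t) ∧
      ∃ c, KB1 g.vol (ρ t) c ∧ KB1 g.vol (β t) c := by
    intro t ht
    by_cases htt : t₀ < t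
    · have e1 : ρ t = (hex t htt).choose.1 := dif_pos htt
      have e2 : β t = (hex t htt).choose.2 := dif_pos htt
      rw [e1, e2]
      exact (hex t htt).choose_spec
    · rw [not_lt] at htt
      rw [hρs t htt, hβs t htt]
      obtain ⟨d₁, hd₁, h1, -⟩ := big _ (isLen_zero (G := G))
      obtain ⟨⟨D, hD⟩, -⟩ := h1 d₁ hd₁.le le_rfl
      obtain ⟨h2, h3⟩ := hD t ht htt
      have hw := wt_tw hF (isLen_zero (G := G)) hd₁.le
      exact ⟨(hker t ht htt).1, (hker t ht htt).2, _, h2.kb1 hw, h3.kb1 hw⟩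
  obtain ⟨U, hU, hL, hU1, hW⟩ := exists_lifts C g a ha
  refine ⟨U, fun t => SV.rk C (ρ t) (β t), ρ, hL, ?_, fun ℓ hℓ => ?_⟩
  · -- the algebraic identities
    constructor
    · intro t ht
      obtain ⟨-, -, c, h1, h2⟩ := good t ht
      exact (rk_kb1 (C := C) h1 h2).meas
    · intro t ht
      obtain ⟨-, -, c, h1, h2⟩ := good t ht
      exact h1.meas
    · intro t ht
      obtain ⟨k1, k2, c, h1, h2⟩ := good t ht
      exact rk_sq ht (hres t ht) k1 k2 h1 h2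
    · intro t ht
      obtain ⟨k1, k2, c, h1, h2⟩ := good t ht
      exact rk_half ht (hres t ht) k1 k2 h1 h2
    · intro t t' ht ht'
      obtain ⟨k1, k2, c, h1, h2⟩ := good t ht
      obtain ⟨k1', k2', c', h1', h2'⟩ := good t' ht'
      exact rk_res ht ht' (hres t ht) (hres t' ht') k1 k2 h1 h2 k1' k2' h1' h2'
    · intro t ht
      obtain ⟨k1, k2, c, h1, h2⟩ := good t ht
      exact rk_eqv ha hU hL hU1 hW ht (hres t ht) k1 k2 h1 h2
    · intro t ht ψ hψ hs'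
      obtain ⟨k1, k2, c, h1, h2⟩ := good t ht
      exact rk_comm ht (hres t ht) k1 k2 h1 h2 hψ hs'
  · -- the bounds
    obtain ⟨d₁, hd₁, hsm, D', hD'⟩ := big ℓ hℓ
    have hw₁ := wt_tw hF hℓ hd₁.le
    have hbig : ∀ t, t₀ ≤ t →
        KB g.vol (tw hF ℓ d₁) (pN m) (ρ t) (((t₀ / t) ^ 2).toNNReal * D')
          (((t₀ / t) ^ 2).toNNReal * D') ∧
        KB g.vol (tw hF ℓ d₁) (pN m) (β t) ((t₀ / t).toNNReal * D') ((t₀ / t).toNNReal * D') := by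
      intro t ht
      obtain ⟨a', b', h1, h2, h3, h4⟩ := hD' t ht
      obtain ⟨k1, k2, c, h5, h6⟩ := good t (ht₀.trans_le ht)
      exact ⟨h3.congr_ae p0 h5.meas (k1.unique h1 h5 (h3.kb1 hw₁)),
        h4.congr_ae p0 h6.meas (k2.unique h2 h6 (h4.kb1 hw₁))⟩
    refine ⟨d₁, hd₁, fun δ hδ0 hδ => ⟨⟨fun t₁ t₂ ht₁' => ?_, ?_⟩, ?_⟩⟩
    · obtain ⟨⟨D, hD⟩, -⟩ := hsm δ hδ0 hδ
      set c : ℝ≥0 := max D' (max D.toNNReal (|D| * t₁ ^ (-(2 * m / (2 * m + 1) : ℝ))).toNNReal)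
        with hc
      refine ⟨‖C.eps‖₊ * c + c, fun t ht ht' => ?_⟩
      have ht0 : 0 < t := ht₁'.trans_le ht
      have key : KB g.vol (tw hF ℓ δ) (pN m) (ρ t) c c ∧ KB g.vol (tw hF ℓ δ) (pN m) (β t) c c := by
        by_cases htt : t ≤ t₀
        · rw [hρs t htt, hβs t htt]
          obtain ⟨h1, h2⟩ := hD t ht0 htt
          have e1 : D.toNNReal ≤ c := (le_max_left _ _).trans (le_max_right _ _)
          have e2 : sz m D t ≤ c := by
            refine le_trans ?_ ((le_max_right D.toNNReal _).trans (le_max_right D' _))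
            unfold sz
            refine Real.toNNReal_le_toNNReal ?_
            have e3 : (0 : ℝ) ≤ t ^ (-(2 * m / (2 * m + 1) : ℝ)) := Real.rpow_nonneg ht0.le _
            have e4 : t ^ (-(2 * m / (2 * m + 1) : ℝ)) ≤ t₁ ^ (-(2 * m / (2 * m + 1) : ℝ)) :=
              Real.rpow_le_rpow_of_nonpos ht₁' ht (by
                rw [neg_nonpos]
                positivity)
            calc D * t ^ (-(2 * m / (2 * m + 1) : ℝ)) ≤ |D| * t ^ (-(2 * m / (2 * m + 1) : ℝ)) :=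
                  mul_le_mul_of_nonneg_right (le_abs_self _) e3
              _ ≤ _ := mul_le_mul_of_nonneg_left e4 (abs_nonneg _)
          exact ⟨h1.mono p0 e1 e2, h2.mono p0 e1 e2⟩
        · rw [not_le] at htt
          obtain ⟨h1, h2⟩ := hbig t htt.le
          have hs1 : t₀ / t ≤ 1 := (div_le_one ht0).2 htt.le
          have hs0 : 0 ≤ t₀ / t := (div_pos ht₀ ht0).le
          have e1 : ((t₀ / t) ^ 2).toNNReal * D' ≤ c := by
            refine le_trans ?_ (le_max_left D' _)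
            refine mul_le_of_le_one_left zero_le ?_
            rw [Real.toNNReal_le_one]
            exact pow_le_one₀ hs0 hs1
          have e2 : (t₀ / t).toNNReal * D' ≤ c := by
            refine le_trans ?_ (le_max_left D' _)
            refine mul_le_of_le_one_left zero_le ?_
            rw [Real.toNNReal_le_one]
            exact hs1
          exact ⟨(h1.weight p0 (tw_mono hF hℓ hδ)).mono p0 e1 e1,
            (h2.weight p0 (tw_mono hF hℓ hδ)).mono p0 e2 e2⟩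
      exact KB.rk (wt_tw hF hℓ hδ0) hp key.1 key.2
    · refine ⟨t₀ ^ 2 * D', fun t ht => ⟨((t₀ / t) ^ 2).toNNReal * D', ?_⟩⟩
      have h1 := (hbig t (ht₁.trans ht)).1.weight p0 (tw_mono hF hℓ hδ)
      have e1 : (t₀ ^ 2 * (D' : ℝ) / t ^ 2).toNNReal = ((t₀ / t) ^ 2).toNNReal * D' := by
        rw [div_pow, mul_div_right_comm, Real.toNNReal_mul (by positivity), Real.toNNReal_coe]
      rw [e1]
      exact h1
    · exact (hsm δ hδ0 hδ).2.congr ht₀ hρs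

end Pool.Agent.Lib.MP_df705a_gt.SV
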