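import Pool.Agent.Lib.MP_df705a_gt.Mg.G075
import Pool.Agent.Lib.MP_df705a_gt.Mg.G080
import Pool.Agent.Lib.MP_df705a_gt.SV.G6

/-!
# SV, block G: the group part

`wt_tw` (G1), `isSys` (G2), `finite_index` (G3), `trace_det` (G4), `isExp` (G5), `group_part` (G6).
-/
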